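import Mathlib
import Pool.Agent.Lib.MP_eb03ca_co.Defs
import Pool.Agent.Lib.MP_eb03ca_co.Final

/-!
# The largest critical radius for finite translative coverings is 1/4

The definitions are in `Pool/Agent/Lib/MP_eb03ca_co/Defs.lean`:

* `IsConvexDomain K`: `K` is a compact convex set in the plane with nonempty interior;
* `IsCovered K n D`: `D` is a compact convex set covered by `n` translates of `K`;
* `maxArea K θ n`: the supremum `M_n(K,θ)` of the areas of `D + θ K` over these sets `D`;
* `Theta K θ`: the limit of `M_n(K,θ) / n`;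
* `criticalRadius K`: the supremum of the `θ ≥ 0` with `Theta K θ = Theta K 0`.

The two auxiliary theorems `limit_exists` and `criticalRadius_is_max` show that the limit exists
for every `θ ≥ 0` and that the supremum in the definition of the critical radius is a maximum.
-/

set_option autoImplicit false

open Filter
open scoped Topology Pointwise
open Pool.Agent.Lib.MP_eb03ca_co

namespace Pool.Agent.Results.MP_eb03ca_co.MaxCriticalRadius

/-- The limit defining the parametric covering density exists. -/
theorem limit_exists (K : Set (ℝ × ℝ)) (hK : IsConvexDomain K) (θ : ℝ) (hθ : 0 ≤ θ) :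
    Tendsto (fun n : ℕ => maxArea K θ n / n) atTop (𝓝 (Theta K θ)) :=
  tendsto_Theta hK hθ

/-- The critical radius is the largest `θ ≥ 0` with `Θ(K,θ) = Θ(K,0)`. -/
theorem criticalRadius_is_max (K : Set (ℝ × ℝ)) (hK : IsConvexDomain K) :
    IsGreatest {θ : ℝ | 0 ≤ θ ∧ Theta K θ = Theta K 0} (criticalRadius K) :=
  criticalRadius_isGreatest hK

/-- The supremum `M_n(K,θ)` is over a nonempty set that is bounded above. -/
theorem areas_bounded (K : Set (ℝ × ℝ)) (hK : IsConvexDomain K) (θ : ℝ) (n : ℕ) :
    {a : ℝ | ∃ D : Set (ℝ × ℝ), IsCovered K n D ∧ a = area (D + θ • K)}.Nonempty ∧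
    BddAbove {a : ℝ | ∃ D : Set (ℝ × ℝ), IsCovered K n D ∧ a = area (D + θ • K)} :=
  ⟨⟨_, ∅, isCovered_empty n, rfl⟩, bddAbove_areas hK.1 θ n⟩

/-- The maximum of the critical radius over all convex domains in the plane is `1/4`. -/
theorem result :
    IsGreatest {r : ℝ | ∃ K : Set (ℝ × ℝ), IsConvexDomain K ∧ criticalRadius K = r} (1 / 4) :=
  max_criticalRadius

end Pool.Agent.Results.MP_eb03ca_co.MaxCriticalRadius
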